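import Mathlib

/-!
# Finitely generated CP monoids contain all countable monoids

A monoid embeds in the underlying monoid of some finitely generated (non-zero) categorical product
monoid if and only if it is countable.
-/

set_option autoImplicit false

namespace Pool.Agent.Results.MP_eefcda_al.CountableMonoids

universe u

/-- `(M, S, p, q)` is a categorical quasiproduct monoid. -/
def IsCQP {M : Type} [Monoid M] (S : M → M → M) (p q : M) : Prop :=
  (∀ a b, p * S a b = a) ∧ (∀ a b, q * S a b = b) ∧ ∀ a b c, S a b * c = S (a * c) (b * c)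

/-- The monoid of all the maps `ℕ → ℕ`. -/
abbrev E : Type := Function.End ℕ

/-- The first projection. -/
def p1 : E := fun n => n.unpair.1
/-- The second projection. -/
def p2 : E := fun n => n.unpair.2
/-- The pairing. -/
def Sg (a b : E) : E := fun n => Nat.pair (a n) (b n)
/-- The action on the first factor. -/
def x1 (a : E) : E := Sg (a * p1) p2
/-- The swap. -/
def sw : E := Sg p2 p1
/-- The diagonal. -/
def dg : E := Sg 1 1
/-- The associativity isomorphism. -/
def al : E := Sg (p1 * p1) (Sg (p2 * p1) p2)
/-- The inverse of the associativity isomorphism. -/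
def be : E := Sg (Sg p1 (p1 * p2)) (p2 * p2)

theorem mul_app (f g : E) (n : ℕ) : (f * g) n = f (g n) := rfl
theorem one_app (n : ℕ) : (1 : E) n = n := rfl

theorem x1_mul (a b : E) : x1 (a * b) = x1 a * x1 b := by
  funext n; simp [x1, Sg, p1, p2, mul_app]
theorem x1_one : x1 1 = 1 := by
  funext n; simp [x1, Sg, p1, p2, mul_app, one_app]
theorem x1_x1 (a : E) : x1 (x1 a) = be * x1 a * al := by
  funext n; simp [x1, Sg, p1, p2, mul_app, al, be]
theorem Sg_eq (a b : E) : Sg a b = x1 a * sw * x1 b * sw * dg := by
  funext n; simp [x1, Sg, p1, p2, mul_app, sw, dg, one_app]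

section

variable (T : Set E)

/-- The basic generators. -/
def G0 : Set E := {p1, p2, sw, dg, al, be} ∪ T

/-- The monoid generated by the basic generators and by their actions on the first factor. -/
def M : Submonoid E := Submonoid.closure (G0 T ∪ x1 '' G0 T)

variable {T}

theorem g0 {g : E} (h : g ∈ G0 T) : g ∈ M T := Submonoid.subset_closure (Or.inl h)

theorem x1_mem {g : E} (h : g ∈ M T) : x1 g ∈ M T := by
  induction h using Submonoid.closure_induction with
  | mem x hx =>
    rcases hx with hx | ⟨y, hy, rfl⟩
    · exact Submonoid.subset_closure (Or.inr ⟨x, hx, rfl⟩)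
    · rw [x1_x1]
      exact (M T).mul_mem ((M T).mul_mem (g0 (by simp [G0]))
        (Submonoid.subset_closure (Or.inr ⟨y, hy, rfl⟩))) (g0 (by simp [G0]))
  | one => rw [x1_one]; exact (M T).one_mem
  | mul x y _ _ hx hy => rw [x1_mul]; exact (M T).mul_mem hx hy

theorem Sg_mem {a b : E} (ha : a ∈ M T) (hb : b ∈ M T) : Sg a b ∈ M T := by
  rw [Sg_eq]
  have h1 : sw ∈ M T := g0 (by simp [G0])
  exact (M T).mul_mem ((M T).mul_mem ((M T).mul_mem ((M T).mul_mem (x1_mem ha) h1) (x1_mem hb)) h1)
    (g0 (by simp [G0]))

/-- If `T` is finite, `M T` is a non-zero finitely generated CP monoid. -/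
theorem M_spec (hT : T.Finite) : ∃ (S : M T → M T → M T) (p q : M T),
    Nontrivial (M T) ∧ IsCQP S p q ∧ S p q = 1 ∧ Monoid.FG (M T) := by
  refine ⟨fun a b => ⟨Sg a b, Sg_mem a.2 b.2⟩, ⟨p1, g0 (by simp [G0])⟩,
    ⟨p2, g0 (by simp [G0])⟩, ⟨⟨⟨p1, g0 (by simp [G0])⟩, ⟨p2, g0 (by simp [G0])⟩, fun h => ?_⟩⟩,
    ⟨fun a b => ?_, fun a b => ?_, fun a b c => ?_⟩, ?_, ?_⟩
  · have := congrFun (congrArg Subtype.val h) (Nat.pair 0 1)
    simp [p1, p2] at this
  · apply Subtype.ext; funext n; simp [p1, Sg, mul_app]
  · apply Subtype.ext; funext n; simp [p2, Sg, mul_app]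
  · apply Subtype.ext; funext n; simp [Sg, mul_app]
  · apply Subtype.ext; funext n; simp [p1, p2, Sg, one_app]
  · have h1 : (G0 T ∪ x1 '' G0 T).Finite := by
      have : (G0 T).Finite := (Set.toFinite _).union hT
      exact this.union (this.image _)
    exact (Monoid.fg_iff_submonoid_fg (M T)).2 ((Submonoid.fg_iff (M T)).2 ⟨_, rfl, h1⟩)

end

section Rep

variable {N : Type u} [Monoid N] (e : N → ℕ)

open Classical in
/-- The left regular action of `N`, transported to `ℕ`. -/
noncomputable def rep (a : N) : E := fun n => if h : ∃ x, e x = n then e (a * h.choose) else n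

variable {e}

theorem rep_e (he : Function.Injective e) (a x : N) : rep e a (e x) = e (a * x) := by
  have h : ∃ y, e y = e x := ⟨x, rfl⟩
  rw [rep, dif_pos h, he h.choose_spec]

theorem rep_out (a : N) {n : ℕ} (h : ¬ ∃ x, e x = n) : rep e a n = n := by
  rw [rep, dif_neg h]

/-- The embedding of `N` into the monoid of the maps `ℕ → ℕ`. -/
noncomputable def repHom (he : Function.Injective e) : N →* E where
  toFun := rep e
  map_one' := by
    funext n
    by_cases h : ∃ x, e x = n
    · obtain ⟨x, rfl⟩ := h
      rw [rep_e he, one_mul, one_app]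
    · rw [rep_out _ h, one_app]
  map_mul' := by
    intro a b
    funext n
    rw [mul_app]
    by_cases h : ∃ x, e x = n
    · obtain ⟨x, rfl⟩ := h
      rw [rep_e he, rep_e he, rep_e he, mul_assoc]
    · rw [rep_out _ h, rep_out _ h, rep_out _ h]

theorem repHom_injective (he : Function.Injective e) : Function.Injective (repHom he) := by
  intro a b h
  have h1 : rep e a (e 1) = rep e b (e 1) := congrFun h (e 1)
  rw [rep_e he, rep_e he, mul_one, mul_one] at h1
  exact he h1

end Rep

/-- The map `n ↦ ⟨0, n⟩`. -/
def inj0 : E := fun n => Nat.pair 0 n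
/-- The map `⟨k, n⟩ ↦ ⟨k + 1, n⟩`. -/
def shift : E := fun n => Nat.pair (n.unpair.1 + 1) n.unpair.2
/-- The map `⟨k, n⟩ ↦ f k n`. -/
def code (f : ℕ → E) : E := fun n => f n.unpair.1 n.unpair.2

theorem shift_pow (k n : ℕ) : (shift ^ k * inj0) n = Nat.pair k n := by
  induction k with
  | zero => rfl
  | succ k ih =>
    rw [pow_succ', mul_assoc, mul_app, ih]
    simp [shift]

theorem code_mul (f : ℕ → E) (k : ℕ) : code f * (shift ^ k * inj0) = f k := by
  funext n
  rw [mul_app, shift_pow]
  simp [code]

theorem countable_of_fg {M : Type} [Monoid M] (h : Monoid.FG M) : Countable M := by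
  obtain ⟨G, hG⟩ := h.fg_top
  have hr := FreeMonoid.mrange_lift (fun g : (G : Set M) => (g : M))
  rw [Subtype.range_coe, hG] at hr
  have hs : Function.Surjective (FreeMonoid.lift (fun g : (G : Set M) => (g : M))) :=
    MonoidHom.mrange_eq_top.1 hr
  have : Countable (FreeMonoid (G : Set M)) := inferInstanceAs (Countable (List (G : Set M)))
  exact hs.countable

/-- **Finitely generated categorical product monoids exist, and contain all countable monoids.** A
monoid `N` is countable if and only if there is a categorical product monoid `(M, Σ, π₁, π₂)` (in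
particular a CQP monoid) with at least two elements, whose underlying monoid is finitely generated
and contains a copy of `N` as a submonoid. -/
theorem result (N : Type u) [Monoid N] :
    Countable N ↔ ∃ (M : Type) (_ : Monoid M) (S : M → M → M) (p q : M),
      Nontrivial M ∧ IsCQP S p q ∧ S p q = 1 ∧ Monoid.FG M ∧
        ∃ φ : N →* M, Function.Injective φ := by
  constructor
  · intro hN
    obtain ⟨e, he⟩ : ∃ e : N → ℕ, Function.Injective e := hN.exists_injective_nat'
    obtain ⟨f, hf⟩ := exists_surjective_nat N
    set T : Set E := {inj0, shift, code (fun k => repHom he (f k))} with hT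
    obtain ⟨S, p, q, h1, h2, h3, h4⟩ := M_spec (T := T) (Set.toFinite _)
    refine ⟨M T, inferInstance, S, p, q, h1, h2, h3, h4, ?_⟩
    have hmem : ∀ a : N, repHom he a ∈ M T := by
      intro a
      obtain ⟨k, rfl⟩ := hf a
      rw [← code_mul (fun k => repHom he (f k)) k]
      exact (M T).mul_mem (g0 (by simp [G0, hT]))
        ((M T).mul_mem ((M T).pow_mem (g0 (by simp [G0, hT])) k) (g0 (by simp [G0, hT])))
    refine ⟨(repHom he).codRestrict (M T) hmem, fun a b h => ?_⟩
    exact repHom_injective he (congrArg Subtype.val h)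
  · rintro ⟨M, _, S, p, q, -, -, -, hfg, φ, hφ⟩
    have := countable_of_fg hfg
    exact hφ.countable

end Pool.Agent.Results.MP_eefcda_al.CountableMonoids
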